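import Pool.Agent.Run7.h568.DG.CIface

/-!
# Dense Thurston geodesics, closed surfaces: the gauge

`C_gauge` of the interface of helper568, from `C_R`, `C_eig` and `C_la`.
The first lemmas on `SL(2)` are those of helper483 (`Run7/h483/DG/Gauge.lean`).
-/

open Real Matrix

noncomputable section

namespace Run7.h730.DG

open Run7.h568.DG

theorem sl_det (g : SL) : g.1 0 0 * g.1 1 1 - g.1 0 1 * g.1 1 0 = 1 := by
  have := g.2
  rwa [Matrix.det_fin_two] at this

theorem sl_ext4 (g h : SL) (h00 : g.1 0 0 = h.1 0 0) (h01 : g.1 0 1 = h.1 0 1)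
    (h10 : g.1 1 0 = h.1 1 0) (h11 : g.1 1 1 = h.1 1 1) : g = h := by
  apply Subtype.ext
  ext i j
  fin_cases i <;> fin_cases j <;> assumption

theorem mul00 (g h : SL) : (g * h).1 0 0 = g.1 0 0 * h.1 0 0 + g.1 0 1 * h.1 1 0 := by
  have : (g * h).1 = g.1 * h.1 := rfl
  rw [this, Matrix.mul_apply, Fin.sum_univ_two]

theorem mul01 (g h : SL) : (g * h).1 0 1 = g.1 0 0 * h.1 0 1 + g.1 0 1 * h.1 1 1 := by
  have : (g * h).1 = g.1 * h.1 := rfl
  rw [this, Matrix.mul_apply, Fin.sum_univ_two]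

theorem mul10 (g h : SL) : (g * h).1 1 0 = g.1 1 0 * h.1 0 0 + g.1 1 1 * h.1 1 0 := by
  have : (g * h).1 = g.1 * h.1 := rfl
  rw [this, Matrix.mul_apply, Fin.sum_univ_two]

theorem mul11 (g h : SL) : (g * h).1 1 1 = g.1 1 0 * h.1 0 1 + g.1 1 1 * h.1 1 1 := by
  have : (g * h).1 = g.1 * h.1 := rfl
  rw [this, Matrix.mul_apply, Fin.sum_univ_two]

theorem inv_val (g : SL) : (g⁻¹).1 = !![g.1 1 1, -g.1 0 1; -g.1 1 0, g.1 0 0] := by
  have : (g⁻¹).1 = g.1.adjugate := rfl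
  rw [this, Matrix.adjugate_fin_two]

theorem inv00 (g : SL) : (g⁻¹).1 0 0 = g.1 1 1 := by rw [inv_val]; rfl

theorem inv01 (g : SL) : (g⁻¹).1 0 1 = -g.1 0 1 := by rw [inv_val]; rfl

theorem inv10 (g : SL) : (g⁻¹).1 1 0 = -g.1 1 0 := by rw [inv_val]; rfl

theorem inv11 (g : SL) : (g⁻¹).1 1 1 = g.1 0 0 := by rw [inv_val]; rfl

theorem W00 : W.1 0 0 = 1 := rfl
theorem W01 : W.1 0 1 = -1 := rfl
theorem W10 : W.1 1 0 = 1 := rfl
theorem W11 : W.1 1 1 = 0 := rfl
theorem E00 (s : ℝ) : (E s).1 0 0 = 0 := rfl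
theorem E01 (s : ℝ) : (E s).1 0 1 = exp (s / 2) := rfl
theorem E10 (s : ℝ) : (E s).1 1 0 = -exp (-s / 2) := rfl
theorem E11 (s : ℝ) : (E s).1 1 1 = 0 := rfl

theorem neg_val (g : SL) (i j : Fin 2) : (-g).1 i j = -(g.1 i j) := by
  have : (-g).1 = -g.1 := rfl
  rw [this, Matrix.neg_apply]

theorem one01 : (1 : SL).1 0 1 = 0 := rfl

theorem exp_neg_half (s : ℝ) : exp (-s / 2) = (exp (s / 2))⁻¹ := by
  rw [← Real.exp_neg]; congr 1; ring

/-- Three matrices with second column `(-1, 0)` and product `-1` are `W`. -/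
theorem three (A B C : SL) (hA : A.1 0 1 = -1) (hA' : A.1 1 1 = 0) (hB : B.1 0 1 = -1)
    (hB' : B.1 1 1 = 0) (hC : C.1 0 1 = -1) (h : A * B * C = -1) : A = W := by
  have h1 : A * B = -C⁻¹ := by
    have : A * B = A * B * C * C⁻¹ := by group
    rw [this, h]; simp
  have h2 := congrArg (fun M : SL => M.1 0 1) h1
  simp only [neg_val, inv01, mul01, hA, hB, hB', hC] at h2
  have h3 := sl_det A
  rw [hA, hA'] at h3
  apply sl_ext4
  · rw [W00]; linarith
  · rw [W01, hA]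
  · rw [W10]; linarith
  · rw [W11, hA']

/-- Matrices with second columns `(*, 0)` and product `-1`. -/
theorem two (A B : SL) (hA' : A.1 1 1 = 0) (hB : B.1 0 1 ≠ 0) (hB' : B.1 1 1 = 0)
    (h : A * B = -1) (s : ℝ) (hs : A.1 0 1 = exp (s / 2)) : A = E s := by
  have h2 := congrArg (fun M : SL => M.1 0 1) h
  simp only [neg_val, mul01, hB', one01] at h2
  have h4 : A.1 0 0 * B.1 0 1 = 0 := by linarith
  have h0 : A.1 0 0 = 0 := (mul_eq_zero.mp h4).resolve_right hB
  have h3 := sl_det A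
  rw [h0, hA', hs] at h3
  apply sl_ext4
  · rw [E00, h0]
  · rw [E01, hs]
  · rw [E10, exp_neg_half]
    have hne : exp (s / 2) ≠ 0 := (exp_pos _).ne'
    field_simp
    linarith
  · rw [E11, hA']

theorem gauge (hR : C_R) (hE : C_eig) (hLa : C_la) : C_gauge := by
  intro D _ _ T P t p hp
  have hio : ∀ d, p.1 (T.io d) = p.1 d := hp.1
  obtain ⟨hR1, hR2, -, -, -⟩ := hR T P t p hio
  obtain ⟨-, -, -, -, -, hxi, -, -, hom, -, hJ, hrot, h6, -⟩ := hE T P t p hp
  have hla : ∀ d, 0 < t.la p d := hLa T P t p hp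
  set a : D → ℝ := fun d => exp (t.al p d / 2) with ha
  have apos : ∀ d, 0 < a d := fun d => exp_pos _
  have aa : ∀ d, a d * a (T.sg d) = t.la p d := by
    intro d
    simp only [ha]
    rw [← exp_add]
    have : t.al p d / 2 + t.al p (T.sg d) / 2 = log (t.la p d) := by
      unfold PTD.al PTD.Lam
      rw [T.sg3]
      ring
    rw [this, exp_log (hla d)]
  have gdet : ∀ d, (!![t.h0 p d / a (T.sg d), -(t.xi p d) / a d;
      t.h1 p d / a (T.sg d), 1 / a d] : Matrix (Fin 2) (Fin 2) ℝ).det = 1 := by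
    intro d
    rw [Matrix.det_fin_two]
    have h1 := aa d
    have h2 : t.la p d = t.h0 p d + t.xi p d * t.h1 p d := rfl
    have h3 := (apos d).ne'
    have h4 := (apos (T.sg d)).ne'
    have e : t.h0 p d / a (T.sg d) * (1 / a d) - -(t.xi p d) / a d * (t.h1 p d / a (T.sg d)) =
        (t.h0 p d + t.xi p d * t.h1 p d) / (a d * a (T.sg d)) := by
      field_simp
      ring
    rw [h1, ← h2, div_self (hla d).ne'] at e
    simpa using e
  set g : D → SL := fun d => ⟨!![t.h0 p d / a (T.sg d), -(t.xi p d) / a d;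
      t.h1 p d / a (T.sg d), 1 / a d], gdet d⟩ with hg
  have g00 : ∀ d, (g d).1 0 0 = t.h0 p d / a (T.sg d) := fun d => rfl
  have g01 : ∀ d, (g d).1 0 1 = -(t.xi p d) / a d := fun d => rfl
  have g10 : ∀ d, (g d).1 1 0 = t.h1 p d / a (T.sg d) := fun d => rfl
  have g11 : ∀ d, (g d).1 1 1 = 1 / a d := fun d => rfl
  -- the second column of `g⁻¹ * X`
  have col : ∀ (d : D) (X : SL) (r : ℝ), X.1 0 1 = r * t.h0 p d → X.1 1 1 = r * t.h1 p d →
      ((g d)⁻¹ * X).1 0 1 = r * a (T.sg d) ∧ ((g d)⁻¹ * X).1 1 1 = 0 := by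
    intro d X r h1 h2
    have h3 := (apos d).ne'
    have h4 := (apos (T.sg d)).ne'
    constructor
    · rw [mul01, inv00, inv01, g11, g01, h1, h2]
      have e : 1 / a d * (r * t.h0 p d) + -(-(t.xi p d) / a d) * (r * t.h1 p d) =
          r * (t.h0 p d + t.xi p d * t.h1 p d) / a d := by
        field_simp
      have h5 : t.la p d = t.h0 p d + t.xi p d * t.h1 p d := rfl
      rw [e, ← h5, ← aa d]
      field_simp
    · rw [mul11, inv10, inv11, g10, g00, h1, h2]
      ring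
  -- rotation of a triangle
  have hRs00 : ∀ d, (t.Rs p d).1 0 0 = (t.H p d).1 0 0 + (t.H p d).1 0 1 := fun d => by
    unfold PTD.Rs; rw [mul00, W00, W10]; ring
  have hRs01 : ∀ d, (t.Rs p d).1 0 1 = -(t.H p d).1 0 0 := fun d => by
    unfold PTD.Rs; rw [mul01, W01, W11]; ring
  have hRs10 : ∀ d, (t.Rs p d).1 1 0 = (t.H p d).1 1 0 + (t.H p d).1 1 1 := fun d => by
    unfold PTD.Rs; rw [mul10, W00, W10]; ring
  have hRs11 : ∀ d, (t.Rs p d).1 1 1 = -(t.H p d).1 1 0 := fun d => by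
    unfold PTD.Rs; rw [mul11, W01, W11]; ring
  have hM : ∀ d, ((g d)⁻¹ * (t.Rs p d * g (T.sg d))).1 0 1 = -1 ∧
      ((g d)⁻¹ * (t.Rs p d * g (T.sg d))).1 1 1 = 0 := by
    intro d
    have h4 := (apos (T.sg d)).ne'
    have h := col d (t.Rs p d * g (T.sg d)) (-(1 / a (T.sg d))) (by
      rw [mul01, hRs00, hRs01, g01, g11]
      unfold PTD.h0
      field_simp
      ring) (by
      rw [mul11, hRs10, hRs11, g01, g11]
      unfold PTD.h1
      field_simp
      ring)
    refine ⟨?_, h.2⟩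
    rw [h.1]
    field_simp
  have c1 : ∀ d, t.Rs p d * g (T.sg d) = g d * W := by
    intro d
    have h := three ((g d)⁻¹ * (t.Rs p d * g (T.sg d)))
      ((g (T.sg d))⁻¹ * (t.Rs p (T.sg d) * g (T.sg (T.sg d))))
      ((g (T.sg (T.sg d)))⁻¹ * (t.Rs p (T.sg (T.sg d)) * g (T.sg (T.sg (T.sg d)))))
      (hM d).1 (hM d).2 (hM _).1 (hM _).2 (hM _).1 (by
        rw [T.sg3]
        have : (g d)⁻¹ * (t.Rs p d * g (T.sg d)) *
            ((g (T.sg d))⁻¹ * (t.Rs p (T.sg d) * g (T.sg (T.sg d)))) *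
            ((g (T.sg (T.sg d)))⁻¹ * (t.Rs p (T.sg (T.sg d)) * g d)) =
            (g d)⁻¹ * (t.Rs p d * t.Rs p (T.sg d) * t.Rs p (T.sg (T.sg d))) * g d := by group
        rw [this, hR1 d]
        simp)
    rw [← h]
    group
  -- crossing an edge
  have hRi : ∀ d, ∃ r, 0 < r ∧
      -((t.Ri p d).1 0 0) * t.xi p (T.io d) + (t.Ri p d).1 0 1 = r * t.h0 p d ∧
      -((t.Ri p d).1 1 0) * t.xi p (T.io d) + (t.Ri p d).1 1 1 = r * t.h1 p d := by
    intro d
    obtain ⟨r, hr, hr1, hr2⟩ := hrot (T.sg d)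
    have hrho : T.rho (T.sg d) = T.io d := by unfold Tri.rho; rw [T.sg3]
    rw [hrho, T.sg3] at hr1 hr2
    have hY : t.Ri p d =
        -(t.Rs p d * (t.Rs p (T.sg d) * t.Rs p (T.sg (T.sg d)) * t.Ri p d)) := by
      have : t.Rs p d * (t.Rs p (T.sg d) * t.Rs p (T.sg (T.sg d)) * t.Ri p d) =
          (t.Rs p d * t.Rs p (T.sg d) * t.Rs p (T.sg (T.sg d))) * t.Ri p d := by group
      rw [this, hR1 d]
      simp
    generalize t.Rs p (T.sg d) * t.Rs p (T.sg (T.sg d)) * t.Ri p d = Y at hr1 hr2 hY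
    refine ⟨r, hr, ?_, ?_⟩
    · rw [hY, neg_val, neg_val, mul00, mul01, hRs00, hRs01]
      unfold PTD.h0
      linear_combination -((t.H p d).1 0 0 + (t.H p d).1 0 1) * hr1 + (t.H p d).1 0 0 * hr2
    · rw [hY, neg_val, neg_val, mul10, mul11, hRs10, hRs11]
      unfold PTD.h1
      linear_combination -((t.H p d).1 1 0 + (t.H p d).1 1 1) * hr1 + (t.H p d).1 1 0 * hr2
  have hN : ∀ d (r : ℝ), -((t.Ri p d).1 0 0) * t.xi p (T.io d) + (t.Ri p d).1 0 1 = r * t.h0 p d →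
      -((t.Ri p d).1 1 0) * t.xi p (T.io d) + (t.Ri p d).1 1 1 = r * t.h1 p d →
      ((g d)⁻¹ * (t.Ri p d * g (T.io d))).1 0 1 = r / a (T.io d) * a (T.sg d) ∧
      ((g d)⁻¹ * (t.Ri p d * g (T.io d))).1 1 1 = 0 := by
    intro d r h1 h2
    have h4 := (apos (T.io d)).ne'
    refine col d (t.Ri p d * g (T.io d)) (r / a (T.io d)) ?_ ?_
    · rw [mul01, g01, g11]
      have : (t.Ri p d).1 0 0 * (-(t.xi p (T.io d)) / a (T.io d)) +
          (t.Ri p d).1 0 1 * (1 / a (T.io d)) =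
          (-((t.Ri p d).1 0 0) * t.xi p (T.io d) + (t.Ri p d).1 0 1) / a (T.io d) := by
        field_simp
      rw [this, h1]
      ring
    · rw [mul11, g01, g11]
      have : (t.Ri p d).1 1 0 * (-(t.xi p (T.io d)) / a (T.io d)) +
          (t.Ri p d).1 1 1 * (1 / a (T.io d)) =
          (-((t.Ri p d).1 1 0) * t.xi p (T.io d) + (t.Ri p d).1 1 1) / a (T.io d) := by
        field_simp
      rw [this, h2]
      ring
  have hN' : ∀ d, ((g d)⁻¹ * (t.Ri p d * g (T.io d))).1 0 1 ≠ 0 ∧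
      ((g d)⁻¹ * (t.Ri p d * g (T.io d))).1 1 1 = 0 := by
    intro d
    obtain ⟨r, hr, h1, h2⟩ := hRi d
    have h := hN d r h1 h2
    refine ⟨?_, h.2⟩
    rw [h.1]
    exact (mul_pos (div_pos hr (apos _)) (apos _)).ne'
  have c2 : ∀ d, d ≠ T.io P.u → d ≠ T.io P.v →
      t.Ri p d * g (T.io d) = g d * E (t.tw1 p d) := by
    intro d hu hv
    have hs : 0 < 1 + t.xi p (T.sg d) := by linarith [hxi (T.sg d)]
    have h6d := h6 d hu hv
    have hRid : t.Ri p d = t.H p d * E (p.1 d) := by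
      unfold PTD.Ri; rw [if_neg hu, if_neg hv]
    have hy : exp (-(p.1 d) / 2) * t.xi p (T.io d) =
        exp (p.1 d / 2) / (1 + t.xi p (T.sg d)) * t.xi p (T.sg d) := by
      have e1 : exp (-(p.1 d) / 2) = exp (p.1 d / 2) * exp (-(p.1 d)) := by
        rw [← exp_add]; congr 1; ring
      rw [e1, div_mul_eq_mul_div, eq_div_iff hs.ne']
      linear_combination exp (p.1 d / 2) * h6d
    have hex : exp (p.1 d / 2) =
        exp (p.1 d / 2) / (1 + t.xi p (T.sg d)) * (1 + t.xi p (T.sg d)) := by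
      field_simp
    have h := hN d (exp (p.1 d / 2) / (1 + t.xi p (T.sg d))) (by
        rw [hRid, mul00, mul01, E00, E01, E10, E11]
        unfold PTD.h0
        linear_combination (t.H p d).1 0 1 * hy + (t.H p d).1 0 0 * hex) (by
        rw [hRid, mul10, mul11, E00, E01, E10, E11]
        unfold PTD.h1
        linear_combination (t.H p d).1 1 1 * hy + (t.H p d).1 1 0 * hex)
    have hh := two ((g d)⁻¹ * (t.Ri p d * g (T.io d)))
      ((g (T.io d))⁻¹ * (t.Ri p (T.io d) * g (T.io (T.io d)))) h.2 (hN' _).1 (hN' _).2 (by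
        rw [T.io_io]
        have : (g d)⁻¹ * (t.Ri p d * g (T.io d)) * ((g (T.io d))⁻¹ * (t.Ri p (T.io d) * g d)) =
            (g d)⁻¹ * (t.Ri p d * t.Ri p (T.io d)) * g d := by group
        rw [this, hR2 d]
        simp) (t.tw1 p d) (by
        rw [h.1]
        have e : t.tw1 p d / 2 = p.1 d / 2 + t.al p (T.sg d) / 2 - t.al p (T.io d) / 2 -
            log (1 + t.xi p (T.sg d)) := by
          unfold PTD.tw1; ring
        rw [e, exp_sub, exp_sub, exp_add, exp_log hs]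
        simp only [ha]
        have q1 := (exp_pos (t.al p (T.io d) / 2)).ne'
        field_simp)
    rw [← hh]
    group
  have hinv : ∀ d s, t.Ri p d * g (T.io d) = g d * E s →
      t.Ri p (T.io d) * g d = g (T.io d) * E s := by
    intro d s h
    have h1 : t.Ri p (T.io d) = -(t.Ri p d)⁻¹ := by
      have : t.Ri p (T.io d) = (t.Ri p d)⁻¹ * (t.Ri p d * t.Ri p (T.io d)) := by group
      rw [this, hR2 d]; simp
    have h2 : (E s)⁻¹ = -(E s) := by
      apply sl_ext4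
      · rw [inv00, neg_val, E00, E11]; simp
      · rw [inv01, neg_val, E01]
      · rw [inv10, neg_val, E10]
      · rw [inv11, neg_val, E00, E11]; simp
    have h3 : (t.Ri p d)⁻¹ * g d = g (T.io d) * (E s)⁻¹ := by
      have : g (T.io d) * (E s)⁻¹ = (t.Ri p d)⁻¹ * (t.Ri p d * g (T.io d)) * (E s)⁻¹ := by group
      rw [this, h]
      group
    rw [h1, neg_mul, h3, h2]
    simp
  have huv : P.u ≠ P.v := P.huv 0
  have hu1 : P.u ≠ T.io P.u := fun h => T.io_ne P.u h.symm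
  have hu2 : P.u ≠ T.io P.v := fun h => P.hne (by rw [h, T.io_io])
  have hv1 : P.v ≠ T.io P.u := P.hne
  have hv2 : P.v ≠ T.io P.v := fun h => T.io_ne P.v h.symm
  refine ⟨g, fun d => ⟨c1 d, ?_, ?_, ?_⟩, ?_, ?_⟩
  · by_cases h1 : d = T.io P.u
    · have e : (t.tw p).1 d = t.tw1 p P.u := by
        unfold PTD.tw
        simp only [h1, if_true]
      rw [e, h1, T.io_io]
      exact hinv P.u _ (c2 P.u hu1 hu2)
    · by_cases h2 : d = T.io P.v
      · have e : (t.tw p).1 d = t.tw1 p P.v := by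
          unfold PTD.tw
          simp only [if_neg h1, if_pos h2]
        rw [e, h2, T.io_io]
        exact hinv P.v _ (c2 P.v hv1 hv2)
      · have e : (t.tw p).1 d = t.tw1 p d := by
          unfold PTD.tw
          simp only [if_neg h1, if_neg h2]
        rw [e]
        exact c2 d h1 h2
  · rw [g01, g11]; ring
  · rw [g11]; exact div_pos one_pos (apos d)
  · rw [mul_assoc, mul01, inv00, inv01, g11, g01, mul01, mul11, g01, g11]
    obtain ⟨hJ1, hJ2⟩ := hJ
    have h3 := (apos P.u).ne'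
    have h4 := (apos P.v).ne'
    have e1 : (t.RJ p).1 0 0 * (-(t.xi p P.v) / a P.v) + (t.RJ p).1 0 1 * (1 / a P.v) =
        (-((t.RJ p).1 0 0) * t.xi p P.v + (t.RJ p).1 0 1) / a P.v := by
      field_simp
    have e2 : (t.RJ p).1 1 0 * (-(t.xi p P.v) / a P.v) + (t.RJ p).1 1 1 * (1 / a P.v) =
        (-((t.RJ p).1 1 0) * t.xi p P.v + (t.RJ p).1 1 1) / a P.v := by
      field_simp
    rw [e1, e2, hJ1, hJ2]
    ring
  · rw [mul_assoc, mul11, inv10, inv11, g10, g00, mul01, mul11, g01, g11]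
    obtain ⟨hJ1, hJ2⟩ := hJ
    have h3 := (apos P.u).ne'
    have h4 := (apos P.v).ne'
    have e1 : (t.RJ p).1 0 0 * (-(t.xi p P.v) / a P.v) + (t.RJ p).1 0 1 * (1 / a P.v) =
        (-((t.RJ p).1 0 0) * t.xi p P.v + (t.RJ p).1 0 1) / a P.v := by
      field_simp
    have e2 : (t.RJ p).1 1 0 * (-(t.xi p P.v) / a P.v) + (t.RJ p).1 1 1 * (1 / a P.v) =
        (-((t.RJ p).1 1 0) * t.xi p P.v + (t.RJ p).1 1 1) / a P.v := by
      field_simp
    rw [e1, e2, hJ1, hJ2]
    have e3 : (t.tw p).2 = t.al p P.v - t.al p P.u - 2 * log (t.om p) := rfl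
    have e4 : -(t.tw p).2 / 2 = t.al p P.u / 2 - t.al p P.v / 2 + log (t.om p) := by
      rw [e3]; ring
    rw [e4, exp_add, exp_sub, exp_log hom]
    have e5 : exp (t.al p P.u / 2) = a P.u := rfl
    have e6 : exp (t.al p P.v / 2) = a P.v := rfl
    rw [e5, e6]
    have h5 := (apos (T.sg P.u)).ne'
    have h6' : t.la p P.u = t.h0 p P.u + t.xi p P.u * t.h1 p P.u := rfl
    have h7 := aa P.u
    have e7 : -(t.h1 p P.u / a (T.sg P.u)) * (-(t.om p * t.xi p P.u) / a P.v) +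
        t.h0 p P.u / a (T.sg P.u) * (t.om p / a P.v) =
        (t.h0 p P.u + t.xi p P.u * t.h1 p P.u) * t.om p / (a (T.sg P.u) * a P.v) := by
      field_simp
      ring
    rw [e7, ← h6', ← h7]
    field_simp

end Run7.h730.DG
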