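import Pool.Agent.Run7.h568.DG.CIface
import Pool.Agent.Run7.h568.DG.Cob

/-!
# Dense Thurston geodesics, closed surfaces: directions

`C_dir` of the interface of helper568; the proof follows that of `S_dir` by helper171.
-/

open Real Matrix Filter Topology

noncomputable section

namespace Run7.h730.DG

open Run7.h568.DG

variable {D : Type} [Fintype D] [DecidableEq D]

/-- A function with sum zero around every orbit of `rho` is a coboundary. -/
theorem exq (T : Tri D) (y : D → ℝ)
    (h2 : ∀ d, ∑ j ∈ Finset.range (Function.minimalPeriod T.rho d), y (T.rho^[j] d) = 0) :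
    ∃ q : D → ℝ, ∀ d, q d - q (T.rho d) = y (T.rho d) := by
  refine ⟨fun d => -(1 / (Function.minimalPeriod T.rho d : ℝ)) *
    ∑ j ∈ Finset.range (Function.minimalPeriod T.rho d), (j : ℝ) * y (T.rho^[j + 1] d), ?_⟩
  intro u
  show -(1 / (Function.minimalPeriod T.rho u : ℝ)) *
        ∑ j ∈ Finset.range (Function.minimalPeriod T.rho u), (j : ℝ) * y (T.rho^[j + 1] u) -
        -(1 / (Function.minimalPeriod T.rho (T.rho u) : ℝ)) *
        ∑ j ∈ Finset.range (Function.minimalPeriod T.rho (T.rho u)),
          (j : ℝ) * y (T.rho^[j + 1] (T.rho u)) = y (T.rho u)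
  rw [Function.minimalPeriod_apply (rho_per T u)]
  set p := Function.minimalPeriod T.rho u with hp
  have hpp : (0 : ℝ) < p := by exact_mod_cast rho_pos T u
  have hp' : Function.minimalPeriod T.rho (T.rho u) = p := by
    rw [Function.minimalPeriod_apply (rho_per T u)]
  set g : ℕ → ℝ := fun j => y (T.rho^[j] (T.rho u)) with hg
  have hgp : g p = g 0 := by
    simp only [hg]
    rw [← hp', Function.iterate_minimalPeriod]
    simp
  have e1 : ∀ j, y (T.rho^[j + 1] u) = g j := by
    intro j; simp only [hg, Function.iterate_succ_apply]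
  have e2 : ∀ j, y (T.rho^[j + 1] (T.rho u)) = g (j + 1) := by
    intro j; rfl
  have h0 : ∑ j ∈ Finset.range p, g j = 0 := by
    have := h2 (T.rho u)
    rw [hp'] at this
    exact this
  have h0' : ∑ j ∈ Finset.range p, g (j + 1) = 0 := by rw [sum_shift g p hgp, h0]
  have e3 : ∑ j ∈ Finset.range p, (j : ℝ) * g (j + 1)
      = ∑ j ∈ Finset.range p, (j : ℝ) * g j + p * g p := by
    have a1 := Finset.sum_range_succ (fun j => (j : ℝ) * g j) p
    have a2 := Finset.sum_range_succ' (fun j => (j : ℝ) * g j) p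
    have a3 : ∑ j ∈ Finset.range p, ((j + 1 : ℕ) : ℝ) * g (j + 1)
        = ∑ j ∈ Finset.range p, (j : ℝ) * g (j + 1) + ∑ j ∈ Finset.range p, g (j + 1) := by
      rw [← Finset.sum_add_distrib]
      refine Finset.sum_congr rfl fun j _ => ?_
      push_cast; ring
    simp only [Nat.cast_zero, zero_mul, add_zero] at a2
    linarith
  simp only [e1, e2]
  rw [e3, hgp]
  have : g 0 = y (T.rho u) := rfl
  rw [this]
  field_simp
  ring

/-- The orbit sum is constant along the orbit. -/
theorem orbsum_rho (T : Tri D) (y : D → ℝ) (d : D) :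
    ∑ j ∈ Finset.range (Function.minimalPeriod T.rho (T.rho d)), y (T.rho^[j] (T.rho d)) =
    ∑ j ∈ Finset.range (Function.minimalPeriod T.rho d), y (T.rho^[j] d) := by
  rw [Function.minimalPeriod_apply (rho_per T d)]
  have h : y (T.rho^[Function.minimalPeriod T.rho d] d) = y (T.rho^[0] d) := by
    rw [Function.iterate_minimalPeriod]; rfl
  rw [← sum_shift (fun j => y (T.rho^[j] d)) _ h]
  rfl

theorem orbsum_iter (T : Tri D) (y : D → ℝ) (d : D) (k : ℕ) :
    ∑ j ∈ Finset.range (Function.minimalPeriod T.rho (T.rho^[k] d)), y (T.rho^[j] (T.rho^[k] d)) =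
    ∑ j ∈ Finset.range (Function.minimalPeriod T.rho d), y (T.rho^[j] d) := by
  induction k with
  | zero => rfl
  | succ k ih => rw [Function.iterate_succ_apply', orbsum_rho, ih]

/-- Lying on the orbit of `e` is invariant. -/
theorem orb_iff (T : Tri D) (d e : D) :
    (∃ j, T.rho^[j] (T.rho d) = e) ↔ ∃ j, T.rho^[j] d = e := by
  constructor
  · rintro ⟨j, hj⟩
    exact ⟨j + 1, by rw [Function.iterate_succ_apply, hj]⟩
  · rintro ⟨j, hj⟩
    rcases j with _ | j
    · have hp := Function.iterate_minimalPeriod (f := T.rho) (x := d)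
      obtain ⟨k, hk⟩ : ∃ k, Function.minimalPeriod T.rho d = k + 1 :=
        ⟨Function.minimalPeriod T.rho d - 1, by have := rho_pos T d; omega⟩
      rw [hk, Function.iterate_succ_apply] at hp
      exact ⟨k, by rw [hp]; exact hj⟩
    · exact ⟨j, by rw [← hj, Function.iterate_succ_apply]⟩

theorem orb_symm (T : Tri D) (d e : D) (h : ∃ j, T.rho^[j] d = e) : ∃ j, T.rho^[j] e = d := by
  obtain ⟨j, hj⟩ := h
  induction j generalizing e with
  | zero => exact ⟨0, hj.symm⟩
  | succ j ih =>
    rw [Function.iterate_succ_apply'] at hj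
    rw [← hj, orb_iff]
    exact ih _ rfl

theorem dir : C_dir := by
  classical
  intro D _ _ T P p hp ε hε
  obtain ⟨hio, hl, hcu, hc0⟩ := hp
  set l : ℝ := T.cyc p.1 P.v with hldef
  have hvu : ∀ j, T.rho^[j] P.v ≠ P.u := by
    intro j hj
    obtain ⟨k, hk⟩ := orb_symm T _ _ ⟨j, hj⟩
    exact P.huv k hk
  have huv : P.u ≠ P.v := P.huv 0
  have hu1 : P.u ≠ T.io P.u := fun h => T.io_ne P.u h.symm
  have hu2 : P.u ≠ T.io P.v := fun h => P.hne (by rw [h, T.io_io])
  have hv1 : P.v ≠ T.io P.u := P.hne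
  have hv2 : P.v ≠ T.io P.v := fun h => T.io_ne P.v h.symm
  have hioinj : ∀ d e, T.io d = T.io e → d = e := fun d e h => T.io.injective h
  -- the corrected shears
  set y : D → ℝ := fun d => p.1 d + (if d = P.u then l else 0) - (if d = P.v then l else 0) with hy
  have hSu : ∑ j ∈ Finset.range (Function.minimalPeriod T.rho P.u), y (T.rho^[j] P.u) = 0 := by
    simp only [hy, Finset.sum_sub_distrib, Finset.sum_add_distrib]
    have e1 : ∑ j ∈ Finset.range (Function.minimalPeriod T.rho P.u),
        (if T.rho^[j] P.u = P.u then l else 0) = l := by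
      have : ∀ j ∈ Finset.range (Function.minimalPeriod T.rho P.u),
          (if T.rho^[j] P.u = P.u then l else 0) = if j = 0 then l else 0 := by
        intro j hj
        by_cases hj0 : j = 0
        · subst hj0; simp
        · rw [if_neg hj0, if_neg]
          intro h
          exact Function.not_isPeriodicPt_of_pos_of_lt_minimalPeriod hj0
            (Finset.mem_range.mp hj) h
      rw [Finset.sum_congr rfl this]
      simp [rho_pos T P.u]
    have e2 : ∑ j ∈ Finset.range (Function.minimalPeriod T.rho P.u),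
        (if T.rho^[j] P.u = P.v then l else 0) = 0 :=
      Finset.sum_eq_zero fun j _ => if_neg (P.huv j)
    rw [e1, e2]
    have : ∑ j ∈ Finset.range (Function.minimalPeriod T.rho P.u), p.1 (T.rho^[j] P.u) = -l := hcu
    rw [this]; ring
  have hSv : ∑ j ∈ Finset.range (Function.minimalPeriod T.rho P.v), y (T.rho^[j] P.v) = 0 := by
    simp only [hy, Finset.sum_sub_distrib, Finset.sum_add_distrib]
    have e1 : ∑ j ∈ Finset.range (Function.minimalPeriod T.rho P.v),
        (if T.rho^[j] P.v = P.v then l else 0) = l := by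
      have : ∀ j ∈ Finset.range (Function.minimalPeriod T.rho P.v),
          (if T.rho^[j] P.v = P.v then l else 0) = if j = 0 then l else 0 := by
        intro j hj
        by_cases hj0 : j = 0
        · subst hj0; simp
        · rw [if_neg hj0, if_neg]
          intro h
          exact Function.not_isPeriodicPt_of_pos_of_lt_minimalPeriod hj0
            (Finset.mem_range.mp hj) h
      rw [Finset.sum_congr rfl this]
      simp [rho_pos T P.v]
    have e2 : ∑ j ∈ Finset.range (Function.minimalPeriod T.rho P.v),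
        (if T.rho^[j] P.v = P.u then l else 0) = 0 :=
      Finset.sum_eq_zero fun j _ => if_neg (hvu j)
    rw [e1, e2]
    have : ∑ j ∈ Finset.range (Function.minimalPeriod T.rho P.v), p.1 (T.rho^[j] P.v) = l := rfl
    rw [this]; ring
  have hS : ∀ d, ∑ j ∈ Finset.range (Function.minimalPeriod T.rho d), y (T.rho^[j] d) = 0 := by
    intro d
    by_cases h1 : ∃ j, T.rho^[j] d = P.u
    · obtain ⟨j, hj⟩ := h1
      rw [← orbsum_iter T y d j, hj]
      exact hSu
    · by_cases h2 : ∃ j, T.rho^[j] d = P.v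
      · obtain ⟨j, hj⟩ := h2
        rw [← orbsum_iter T y d j, hj]
        exact hSv
      · simp only [not_exists] at h1 h2
        have h3 : ∑ j ∈ Finset.range (Function.minimalPeriod T.rho d), p.1 (T.rho^[j] d) = 0 :=
          hc0 d h1 h2
        rw [← h3]
        refine Finset.sum_congr rfl fun j _ => ?_
        simp only [hy]
        rw [if_neg (h1 j), if_neg (h2 j)]
        ring
  obtain ⟨q0, hq0⟩ := exq T y hS
  set s : ℝ := p.2 + l - q0 P.v + q0 P.u with hs
  set q : D → ℝ := fun d => q0 d + (if ∃ j, T.rho^[j] d = P.v then s else 0) with hqdef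
  have hqr : ∀ d, q d - q (T.rho d) = y (T.rho d) := by
    intro d
    simp only [hqdef]
    have h1 : (if ∃ j, T.rho^[j] (T.rho d) = P.v then s else 0) =
        (if ∃ j, T.rho^[j] d = P.v then s else 0) := by
      by_cases h : ∃ j, T.rho^[j] d = P.v
      · rw [if_pos h, if_pos ((orb_iff T d P.v).mpr h)]
      · rw [if_neg h, if_neg (fun h' => h ((orb_iff T d P.v).mp h'))]
    rw [h1]
    linarith [hq0 d]
  have hquv : q P.v - q P.u - l = p.2 := by
    simp only [hqdef]
    rw [if_pos ⟨0, rfl⟩, if_neg (by rintro ⟨j, hj⟩; exact P.huv j hj)]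
    simp only [hs]
    ring
  -- basic identities of `rho`
  have hrsio : ∀ d, T.rho (T.sg (T.io d)) = d := fun d => rho_sgio T d
  have hrsg : ∀ d, T.rho (T.sg d) = T.io d := fun d => by
    unfold Tri.rho; rw [T.sg3]
  have hq : ∀ d, q (T.sg d) - q (T.io d) = y (T.io d) := fun d => by
    have := hqr (T.sg d)
    rwa [hrsg] at this
  obtain ⟨K, hK⟩ := exists_nat_gt (4 / ε + 1 / l)
  have hl0 : 0 < 1 / l := by positivity
  have he0 : 0 < 4 / ε := by positivity
  have hK0 : (0 : ℝ) < K := by linarith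
  have hKe : 4 < K * ε := by
    have : 4 / ε < K := by linarith
    rwa [div_lt_iff₀ hε] at this
  have hKl : 1 < K * l := by
    have : 1 / l < K := by linarith
    rwa [div_lt_iff₀ hl] at this
  set N : D → ℝ := fun d => q d + q (T.sg d) with hN
  have hNio : ∀ d, N (T.io d) = N d + y d - y (T.io d) := fun d => by
    have h1 := hq d
    have h2 := hq (T.io d)
    rw [T.io_io] at h2
    simp only [hN]
    linarith
  set a0 : ℤ := ⌊(K : ℝ) * l⌋ with ha0
  have ha0pos : 1 ≤ a0 := by
    rw [ha0, Int.le_floor]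
    push_cast
    linarith
  set n : D → ℤ := fun d => if d = T.io P.u then ⌊(K : ℝ) * N P.u⌋ + a0
    else if d = P.v then ⌊(K : ℝ) * N (T.io P.v)⌋ + a0 else ⌊(K : ℝ) * N d⌋ with hn
  have hnu : n (T.io P.u) = n P.u + a0 := by
    simp only [hn]
    rw [if_pos trivial, if_neg hu1, if_neg huv]
  have hnv : n P.v = n (T.io P.v) + a0 := by
    simp only [hn]
    rw [if_neg hv1, if_pos trivial, if_neg (fun h => huv (hioinj _ _ h).symm),
      if_neg (fun h => hv2 h.symm)]
  have hnio : ∀ d, ¬ P.Special d → n (T.io d) = n d := by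
    intro d hd
    unfold Portal.Special at hd
    simp only [not_or] at hd
    obtain ⟨h1, h2, h3, h4⟩ := hd
    simp only [hn]
    rw [if_neg (fun h => h1 (hioinj _ _ h)), if_neg (fun h => h4 (by rw [← h, T.io_io])),
      if_neg h2, if_neg h3, hNio d]
    have e1 : y d = p.1 d := by
      simp only [hy]; rw [if_neg h1, if_neg h3]; ring
    have e2 : y (T.io d) = p.1 d := by
      simp only [hy]
      rw [if_neg (fun h => h2 (by rw [← h, T.io_io])), if_neg (fun h => h4 (by rw [← h, T.io_io])),
        hio d]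
      ring
    rw [e1, e2]
    congr 2
    ring
  have hnN : ∀ d, -2 ≤ (n d : ℝ) - K * N d ∧ (n d : ℝ) - K * N d ≤ 0 := by
    intro d
    have f : ∀ z : ℝ, -1 ≤ ((⌊z⌋ : ℤ) : ℝ) - z ∧ ((⌊z⌋ : ℤ) : ℝ) - z ≤ 0 := fun z =>
      ⟨by have := Int.lt_floor_add_one z; linarith, by have := Int.floor_le z; linarith⟩
    have fa := f ((K : ℝ) * l)
    by_cases h1 : d = T.io P.u
    · have e : n d = ⌊(K : ℝ) * N P.u⌋ + a0 := by simp only [hn]; rw [if_pos h1]
      have e2 : N d = N P.u + l := by
        rw [h1, hNio]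
        have e1 : y P.u = p.1 P.u + l := by simp only [hy]; rw [if_pos trivial, if_neg huv]; ring
        have e2 : y (T.io P.u) = p.1 P.u := by
          simp only [hy]; rw [if_neg (fun h => hu1 h.symm), if_neg (fun h => hv1 h.symm), hio]
          ring
        rw [e1, e2]; ring
      have f1 := f ((K : ℝ) * N P.u)
      rw [e, e2]
      push_cast
      rw [ha0]
      constructor <;> [linarith [f1.1, fa.1]; linarith [f1.2, fa.2]]
    · by_cases h2 : d = P.v
      · have e : n d = ⌊(K : ℝ) * N (T.io P.v)⌋ + a0 := by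
          simp only [hn]; rw [if_neg h1, if_pos h2]
        have e2 : N d = N (T.io P.v) + l := by
          rw [h2, hNio]
          have e1 : y P.v = p.1 P.v - l := by
            simp only [hy]; rw [if_pos trivial, if_neg huv.symm]; ring
          have e2 : y (T.io P.v) = p.1 P.v := by
            simp only [hy]; rw [if_neg (fun h => hu2 h.symm), if_neg (fun h => hv2 h.symm), hio]
            ring
          rw [e1, e2]; ring
        have f1 := f ((K : ℝ) * N (T.io P.v))
        rw [e, e2]
        push_cast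
        rw [ha0]
        constructor <;> [linarith [f1.1, fa.1]; linarith [f1.2, fa.2]]
      · have e : n d = ⌊(K : ℝ) * N d⌋ := by simp only [hn]; rw [if_neg h1, if_neg h2]
        have f1 := f ((K : ℝ) * N d)
        rw [e]
        constructor <;> linarith [f1.1, f1.2]
  set c' : D → ℤ := fun d => n d + n (T.sg (T.sg d)) - n (T.sg d) with hc'
  have hc'sum : ∀ d, c' d + c' (T.sg d) = 2 * n d := fun d => by
    simp only [hc', T.sg3]; ring
  have hc'q : ∀ d, -4 ≤ (c' d : ℝ) - 2 * K * q d ∧ (c' d : ℝ) - 2 * K * q d ≤ 2 := by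
    intro d
    have e : 2 * q d = N d + N (T.sg (T.sg d)) - N (T.sg d) := by
      simp only [hN, T.sg3]; ring
    have e' : 2 * K * q d = K * N d + K * N (T.sg (T.sg d)) - K * N (T.sg d) := by
      have : 2 * K * q d = K * (2 * q d) := by ring
      rw [this, e]; ring
    have h1 := hnN d
    have h2 := hnN (T.sg (T.sg d))
    have h3 := hnN (T.sg d)
    rw [e']
    simp only [hc']
    push_cast
    constructor <;> linarith [h1.1, h1.2, h2.1, h2.2, h3.1, h3.2]
  -- minimum along the orbit of rho
  have hex : ∀ d, ∃ m : ℤ, (∀ j, m ≤ c' (T.rho^[j] d)) ∧ ∃ j, c' (T.rho^[j] d) = m := by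
    intro d
    obtain ⟨e, he, hmin⟩ := Finset.exists_min_image
      ((Finset.univ : Finset D).filter (fun e => ∃ j, T.rho^[j] d = e)) c'
      ⟨d, by simp only [Finset.mem_filter, Finset.mem_univ, true_and]; exact ⟨0, rfl⟩⟩
    simp only [Finset.mem_filter, Finset.mem_univ, true_and] at he
    obtain ⟨j, hj⟩ := he
    refine ⟨c' e, fun i => hmin _ (by simp), j, by rw [hj]⟩
  choose m1 hm1 hm2 using hex
  have hm1rho : ∀ d, m1 (T.rho d) = m1 d := by
    intro d
    apply le_antisymm
    · obtain ⟨j, hj⟩ := hm2 d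
      rw [← hj]
      obtain ⟨k, hk⟩ := (orb_iff T d (T.rho^[j] d)).mpr ⟨j, rfl⟩
      rw [← hk]
      exact hm1 (T.rho d) k
    · obtain ⟨j, hj⟩ := hm2 (T.rho d)
      rw [← hj]
      have := hm1 d (j + 1)
      rwa [Function.iterate_succ_apply] at this
  obtain ⟨m0, hm0⟩ : ∃ m0 : ℤ, ∀ d, m0 ≤ c' d := by
    obtain ⟨m0, h⟩ := (Set.finite_range c').bddBelow
    exact ⟨m0, fun d => h ⟨d, rfl⟩⟩
  set mn : D → ℤ := fun d => if (∃ j, T.rho^[j] d = P.u) ∨ (∃ j, T.rho^[j] d = P.v) then m0
    else m1 d with hmn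
  have hmnle : ∀ d, mn d ≤ c' d := by
    intro d
    simp only [hmn]
    split_ifs with h
    · exact hm0 d
    · exact hm1 d 0
  have hmnrho : ∀ d, mn (T.rho d) = mn d := by
    intro d
    simp only [hmn]
    rw [orb_iff, orb_iff, hm1rho]
  have hmnu : mn P.u = m0 := by
    simp only [hmn]; rw [if_pos (Or.inl ⟨0, rfl⟩)]
  have hmnv : mn P.v = m0 := by
    simp only [hmn]; rw [if_pos (Or.inr ⟨0, rfl⟩)]
  have hmnio : ∀ d, mn (T.io d) = mn (T.sg d) := fun d => by
    rw [← hrsg d, hmnrho]
  have hmnsio : ∀ d, mn (T.sg (T.io d)) = mn d := fun d => by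
    rw [← hmnrho (T.sg (T.io d)), hrsio]
  set c : D → ℕ := fun d => (c' d - mn d).toNat with hc
  have hcz : ∀ d, (c d : ℤ) = c' d - mn d := fun d => by
    simp only [hc]
    rw [Int.toNat_of_nonneg]
    have := hmnle d
    omega
  have hnum : ∀ d, ((T.num c d : ℕ) : ℤ) = 2 * n d - mn d - mn (T.sg d) := by
    intro d
    unfold Tri.num
    push_cast
    rw [hcz, hcz]
    have := hc'sum d
    linarith
  have hnumio : ∀ d, ((T.num c (T.io d) : ℕ) : ℤ) = 2 * n (T.io d) - mn d - mn (T.sg d) := by
    intro d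
    rw [hnum, hmnio, hmnsio]
    ring
  obtain ⟨b, hb⟩ : ∃ b : ℕ, (b : ℤ) = a0 := ⟨a0.toNat, Int.toNat_of_nonneg (by omega)⟩
  refine ⟨c, 2 * b, by omega, ⟨?_, ?_, ?_⟩, ?_, 2 * K, by positivity, ?_, ?_⟩
  · intro d hd
    have h1 := hnum d
    have h2 := hnumio d
    rw [hnio d hd] at h2
    omega
  · have h1 := hnum P.u
    have h2 := hnumio P.u
    rw [hnu] at h2
    omega
  · have h1 := hnum P.v
    have h2 := hnumio P.v
    rw [hnv] at h1
    omega
  · intro d h1 h2
    obtain ⟨j, hj⟩ := hm2 d
    refine ⟨j, ?_⟩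
    have hmnj : ∀ j, mn (T.rho^[j] d) = mn d := by
      intro j
      induction j with
      | zero => rfl
      | succ k ih => rw [Function.iterate_succ_apply', hmnrho, ih]
    have h3 : mn d = m1 d := by
      simp only [hmn]
      rw [if_neg]
      rintro (⟨j, h⟩ | ⟨j, h⟩)
      · exact h1 j h
      · exact h2 j h
    have := hcz (T.rho^[j] d)
    rw [hj, hmnj, h3] at this
    omega
  · -- the shears
    have key : ∀ d, d ≠ T.io P.u → d ≠ T.io P.v →
        |((c (T.sg d) : ℝ) - c (T.io d)) / (2 * K) - p.1 d| < ε := by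
      intro d h1 h2
      have e1 : ((c (T.sg d) : ℤ) : ℝ) = c' (T.sg d) - mn (T.sg d) := by
        rw [hcz]; push_cast; ring
      have e2 : ((c (T.io d) : ℤ) : ℝ) = c' (T.io d) - mn (T.sg d) := by
        rw [hcz, hmnio]; push_cast; ring
      rw [Int.cast_natCast] at e1 e2
      have e3 := hq d
      have e4 : y (T.io d) = p.1 d := by
        simp only [hy]
        rw [if_neg (fun h => h1 (by rw [← h, T.io_io])),
          if_neg (fun h => h2 (by rw [← h, T.io_io])), hio d]
        ring
      rw [e4] at e3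
      have g1 := hc'q (T.sg d)
      have g2 := hc'q (T.io d)
      have hid : ((c (T.sg d) : ℝ) - c (T.io d)) / (2 * K) - p.1 d =
          (((c' (T.sg d) : ℝ) - 2 * K * q (T.sg d)) - ((c' (T.io d) : ℝ) - 2 * K * q (T.io d))) /
            (2 * K) := by
        rw [e1, e2, ← e3]
        field_simp
        ring
      rw [hid, abs_div, abs_of_pos (by positivity : (0 : ℝ) < 2 * K),
        div_lt_iff₀ (by positivity)]
      have : |((c' (T.sg d) : ℝ) - 2 * K * q (T.sg d)) -
          ((c' (T.io d) : ℝ) - 2 * K * q (T.io d))| ≤ 6 := by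
        rw [abs_le]
        constructor <;> linarith [g1.1, g1.2, g2.1, g2.2]
      nlinarith
    intro d
    unfold Portal.dirc
    by_cases h1 : d = T.io P.u
    · simp only [h1, if_true]
      rw [hio]
      exact key P.u hu1 hu2
    · by_cases h2 : d = T.io P.v
      · simp only [if_neg h1, if_pos h2]
        rw [h2, hio]
        exact key P.v hv1 hv2
      · simp only [if_neg h1, if_neg h2]
        exact key d h1 h2
  · -- the twist
    unfold Portal.dirc
    simp only
    have e1 : ((c P.u : ℤ) : ℝ) = c' P.u - m0 := by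
      rw [hcz, hmnu]; push_cast; ring
    have e2 : ((c P.v : ℤ) : ℝ) = c' P.v - m0 := by
      rw [hcz, hmnv]; push_cast; ring
    rw [Int.cast_natCast] at e1 e2
    have e3 : ((b : ℤ) : ℝ) = a0 := by rw [hb]
    rw [Int.cast_natCast] at e3
    have g1 := hc'q P.u
    have g2 := hc'q P.v
    have g3 : -1 ≤ (a0 : ℝ) - K * l := by
      have := Int.lt_floor_add_one ((K : ℝ) * l)
      rw [ha0]; linarith
    have g4 : (a0 : ℝ) - K * l ≤ 0 := by
      have := Int.floor_le ((K : ℝ) * l)
      rw [ha0]; linarith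
    have hid : ((c P.v : ℝ) - c P.u - ((2 * b : ℕ) : ℝ)) / (2 * K) - p.2 =
        (((c' P.v : ℝ) - 2 * K * q P.v) - ((c' P.u : ℝ) - 2 * K * q P.u) -
          2 * ((a0 : ℝ) - K * l)) / (2 * K) := by
      push_cast
      rw [e1, e2, e3, ← hquv]
      field_simp
      ring
    rw [hid, abs_div, abs_of_pos (by positivity : (0 : ℝ) < 2 * K),
      div_lt_iff₀ (by positivity)]
    have : |((c' P.v : ℝ) - 2 * K * q P.v) - ((c' P.u : ℝ) - 2 * K * q P.u) -
          2 * ((a0 : ℝ) - K * l)| ≤ 8 := by
      rw [abs_le]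
      constructor <;> linarith [g1.1, g1.2, g2.1, g2.2]
    nlinarith

end Run7.h730.DG
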